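import Pool.Agent.Lib.MP_cd78f9_gt.Veronese

/-!
# The least dimension of a diameter-preserving image of the elliptic space

`M(n)`, the least `m` such that there is a continuous map from the elliptic space of lines in `ℝ^n`
to `ℝ^m` preserving the set of diameters, equals `n (n + 1) / 2 - 1` for every `n ≥ 2`. In
particular `M(n)` is not `o(n ^ 2)`.

Lower bound. The map `φ` lifts to the paraboloid, `x ↦ (φ x, 1, |φ x|^2)`, where each line `x` has a
supporting linear functional vanishing exactly at the images of the lines orthogonal to `x`. The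
faces `cone φ(x^⊥)` have disjoint relative interiors, so by invariance of dimension a face of the
largest dimension has codimension at least `n`; induction gives `m + 2 ≥ n (n + 1) / 2`. In the
case of equality every plane is mapped to a round circle, sums of `φ` over orthonormal frames are
constant and the image is spherical, which is a contradiction.
-/

open Pool.Agent.Lib.MP_cd78f9_gt

namespace Pool.Agent.Results.MP_cd78f9_gt.ExactDimension

/-- **Exact value of `M(n)`, and the negative answer to the question.** For every `n ≥ 2` the least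
`m` for which a continuous map `𝓔_n → ℝ^m` preserving the set of diameters exists is
`n (n + 1) / 2 - 1`. Consequently there are no dimensions `m n = o(n ^ 2)` such that for every
`n ≥ 2` there is a continuous map `𝓔_n → ℝ^(m n)` preserving the set of diameters. -/
theorem result :
    (∀ n : ℕ, 2 ≤ n →
      IsLeast {m : ℕ | ∃ φ : EllipticSpace n → EuclideanSpace ℝ (Fin m),
        IsContinuousMap φ ∧ PreservesDiameters φ} (n * (n + 1) / 2 - 1)) ∧
    ¬ ∃ m : ℕ → ℕ,
      (∀ n : ℕ, 2 ≤ n → ∃ φ : EllipticSpace n → EuclideanSpace ℝ (Fin (m n)),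
        IsContinuousMap φ ∧ PreservesDiameters φ) ∧
      (fun n : ℕ => (m n : ℝ)) =o[Filter.atTop] (fun n : ℕ => (n : ℝ) ^ 2) := by
  have hleast : ∀ n : ℕ, 2 ≤ n →
      IsLeast {m : ℕ | ∃ φ : EllipticSpace n → EuclideanSpace ℝ (Fin m),
        IsContinuousMap φ ∧ PreservesDiameters φ} (n * (n + 1) / 2 - 1) := by
    intro n hn
    refine ⟨exists_veronese hn, ?_⟩
    rintro m ⟨φ, hφ, hd⟩
    have := elliptic_lower hn hφ hd
    omega
  refine ⟨hleast, ?_⟩
  rintro ⟨m, hm, ho⟩
  have h1 := ho.def (c := 1 / 4) (by norm_num)
  obtain ⟨N, hN⟩ := Filter.eventually_atTop.mp h1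
  set n := max N 4 with hn
  have hn4 : 4 ≤ n := le_max_right _ _
  have h2 := hN n (le_max_left _ _)
  obtain ⟨φ, hφ, hd⟩ := hm n (by omega)
  have h3 := elliptic_lower (by omega) hφ hd
  have h4 : n * (n + 1) ≤ 2 * (m n + 1) + 1 := by omega
  have h5 : (n : ℝ) * (n + 1) ≤ 2 * (m n + 1) + 1 := by exact_mod_cast h4
  have hn4' : (4 : ℝ) ≤ n := by exact_mod_cast hn4
  rw [Real.norm_of_nonneg (by positivity), Real.norm_of_nonneg (by positivity)] at h2
  nlinarith

end Pool.Agent.Results.MP_cd78f9_gt.ExactDimension
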